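import Pool.Agent.Lib.MP_6bc78b_nt.MS.QZ.Iface

/-! Project MS, Part QZ, module MUL: disjoint sets of primes. -/

set_option autoImplicit false

open Complex Filter Topology MeasureTheory ArithmeticFunction

namespace Pool.Agent.Lib.MP_6bc78b_nt.MS.QZ.H42

open Pool.Agent.Lib.MP_6bc78b_nt.MS.QZ

/-- The part of `n` composed of primes with the property. -/
noncomputable def part (P : ℕ → Prop) [DecidablePred P] (n : ℕ) : ℕ :=
  (n.factorization.filter P).prod (fun p k => p ^ k)

theorem part_fac (P : ℕ → Prop) [DecidablePred P] (n : ℕ) :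
    (part P n).factorization = n.factorization.filter P := by
  refine Nat.prod_pow_factorization_eq_self fun p hp => ?_
  rw [Finsupp.support_filter, Finset.mem_filter] at hp
  exact Nat.prime_of_mem_primeFactors (by simpa using hp.1)

theorem part_ne (P : ℕ → Prop) [DecidablePred P] (n : ℕ) : part P n ≠ 0 := by
  unfold part
  rw [Finsupp.prod, Finset.prod_ne_zero_iff]
  intro p hp
  rw [Finsupp.support_filter, Finset.mem_filter] at hp
  exact pow_ne_zero _ (Nat.prime_of_mem_primeFactors (by simpa using hp.1)).ne_zero

theorem part_mul (P : ℕ → Prop) [DecidablePred P] {n : ℕ} (hn : n ≠ 0) :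
    part P n * part (fun p => ¬ P p) n = n := by
  unfold part
  rw [Finsupp.prod_filter_mul_prod_filter_not]
  exact Nat.prod_factorization_pow_eq_self hn

theorem part_pf (P : ℕ → Prop) [DecidablePred P] (n : ℕ) :
    (part P n).primeFactors = n.primeFactors.filter P := by
  rw [← Nat.support_factorization, part_fac, Finsupp.support_filter, Nat.support_factorization]

/-- The general statement. -/
theorem gen {R : Type*} [CommSemiring R] {S1 S2 : Finset ℕ} (hd : Disjoint S1 S2)
    (g : ℕ → R) (hg : ∀ a b, a ≠ 0 → b ≠ 0 → Nat.Coprime a b → g (a * b) = g a * g b)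
    (F f1 f2 : ArithmeticFunction R)
    (hF : ∀ n, n ≠ 0 → F n = if n.primeFactors ⊆ S1 ∪ S2 then g n else 0)
    (h1 : ∀ n, n ≠ 0 → f1 n = if n.primeFactors ⊆ S1 then g n else 0)
    (h2 : ∀ n, n ≠ 0 → f2 n = if n.primeFactors ⊆ S2 then g n else 0) : F = f1 * f2 := by
  classical
  ext n
  rcases eq_or_ne n 0 with rfl | hn
  · simp
  rw [ArithmeticFunction.mul_apply, hF n hn]
  split_ifs with hS
  · set a := part (fun p => p ∈ S1) n with ha
    set b := part (fun p => ¬ p ∈ S1) n with hb
    have hab : a * b = n := part_mul _ hn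
    have ha0 : a ≠ 0 := part_ne _ n
    have hb0 : b ≠ 0 := part_ne _ n
    have hapf : a.primeFactors ⊆ S1 := by
      rw [ha, part_pf]; exact fun p hp => (Finset.mem_filter.1 hp).2
    have hbpf : b.primeFactors ⊆ S2 := by
      rw [hb, part_pf]
      intro p hp
      rw [Finset.mem_filter] at hp
      exact (Finset.mem_union.1 (hS hp.1)).resolve_left hp.2
    have hcop : Nat.Coprime a b :=
      (Nat.disjoint_primeFactors ha0 hb0).1 (Finset.disjoint_of_subset_left hapf
        (Finset.disjoint_of_subset_right hbpf hd))
    rw [Finset.sum_eq_single (a, b)]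
    · rw [h1 a ha0, h2 b hb0, if_pos hapf, if_pos hbpf, ← hg a b ha0 hb0 hcop, hab]
    · rintro ⟨c, d⟩ hcd hne
      rw [Nat.mem_divisorsAntidiagonal] at hcd
      obtain ⟨hcd, -⟩ := hcd
      simp only at hcd ⊢
      have hc0 : c ≠ 0 := by rintro rfl; simp at hcd; exact hn hcd.symm
      have hd0 : d ≠ 0 := by rintro rfl; simp at hcd; exact hn hcd.symm
      rw [h1 c hc0, h2 d hd0]
      by_cases hc : c.primeFactors ⊆ S1
      · by_cases hd' : d.primeFactors ⊆ S2
        · exfalso
          apply hne
          have hfac : c = a := by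
            refine Nat.eq_of_factorization_eq hc0 ha0 fun p => ?_
            rw [ha, part_fac, Finsupp.filter_apply]
            have hn' : n.factorization p = c.factorization p + d.factorization p := by
              rw [← hcd, Nat.factorization_mul hc0 hd0]; rfl
            split_ifs with hp
            · have : d.factorization p = 0 := by
                rw [← Finsupp.notMem_support_iff, Nat.support_factorization]
                exact fun h => Finset.disjoint_left.1 hd hp (hd' h)
              omega
            · rw [← Finsupp.notMem_support_iff, Nat.support_factorization]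
              exact fun h => hp (hc h)
          have hdb : d = b := by
            have h3 : c * d = c * b := by rw [hcd, hfac, hab]
            exact Nat.eq_of_mul_eq_mul_left (Nat.pos_of_ne_zero hc0) h3
          rw [hfac, hdb]
        · rw [if_neg hd', mul_zero]
      · rw [if_neg hc, zero_mul]
    · intro h
      exact absurd (Nat.mem_divisorsAntidiagonal.2 ⟨hab, hn⟩) h
  · symm
    refine Finset.sum_eq_zero ?_
    rintro ⟨c, d⟩ hcd
    rw [Nat.mem_divisorsAntidiagonal] at hcd
    obtain ⟨hcd, -⟩ := hcd
    simp only at hcd ⊢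
    have hc0 : c ≠ 0 := by rintro rfl; simp at hcd; exact hn hcd.symm
    have hd0 : d ≠ 0 := by rintro rfl; simp at hcd; exact hn hcd.symm
    rw [h1 c hc0, h2 d hd0]
    by_cases hc : c.primeFactors ⊆ S1
    · by_cases hd' : d.primeFactors ⊆ S2
      · exfalso
        apply hS
        rw [← hcd, Nat.primeFactors_mul hc0 hd0]
        exact Finset.union_subset_union hc hd'
      · rw [if_neg hd', mul_zero]
    · rw [if_neg hc, zero_mul]

theorem nu_mul {a b : ℕ} (hab : Nat.Coprime a b) : nu (a * b) = nu a * nu b := by
  classical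
  unfold nu
  rw [hab.primeFactors_mul, Finset.prod_union hab.disjoint_primeFactors]
  congr 1
  · exact Finset.prod_congr rfl fun p hp => by
      rw [Nat.factorization_eq_of_coprime_left hab (by simpa using hp)]
  · exact Finset.prod_congr rfl fun p hp => by
      rw [Nat.factorization_eq_of_coprime_right hab (by simpa using hp)]

/-- **MUL.** -/
theorem mul : MulStatement := by
  intro S1 S2 _ _ hd
  refine ⟨fun z => ?_, fun α => ?_⟩
  · refine gen hd (fun n => ((moebius n : ℤ) : ℂ) * (n : ℂ) ^ (-z)) ?_ _ _ _
      (fun n _ => rfl) (fun n _ => rfl) (fun n _ => rfl)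
    intro a b _ _ hab
    rw [isMultiplicative_moebius.map_mul_of_coprime hab, Nat.cast_mul,
      Complex.natCast_mul_natCast_cpow]
    push_cast
    ring
  · refine gen hd (fun n => α ^ (cardFactors n) * nu n) ?_ _ _ _ ?_ ?_ ?_
    · intro a b ha hb hab
      rw [cardFactors_mul ha hb, nu_mul hab, pow_add]
      ring
    all_goals
      intro n hn
      simp [ae, hn]

end Pool.Agent.Lib.MP_6bc78b_nt.MS.QZ.H42
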